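import Mathlib

set_option autoImplicit false

namespace Pool.Agent.N318.Plus

open Finset

/-- separated points in an interval -/
theorem card_le {ι : Type*} (a : ι → ℝ) (δ : ℝ) (hδ : 0 < δ)
    (hsep : ∀ l l' : ι, l ≠ l' → δ ≤ |a l - a l'|) (T : Finset ι) (B : ℝ) (hB : 0 ≤ B)
    (hT : ∀ l ∈ T, |a l| ≤ δ * B) : (T.card : ℝ) ≤ 2 * B + 2 := by
  classical
  have hinj : ∀ l l' : ι, ⌊a l / δ⌋ = ⌊a l' / δ⌋ → l = l' := by
    intro l l' h
    by_contra hne
    have h1 := hsep l l' hne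
    have h2 := Int.abs_sub_lt_one_of_floor_eq_floor h
    have h3 : |a l / δ - a l' / δ| = |a l - a l'| / δ := by
      rw [← sub_div, abs_div, abs_of_pos hδ]
    rw [h3, div_lt_one hδ] at h2
    linarith
  have hmap : T.card ≤ (Finset.Icc ⌊-B⌋ ⌊B⌋).card := by
    apply Finset.card_le_card_of_injOn (fun l => ⌊a l / δ⌋)
    · intro l hl
      have h := hT l hl
      rw [abs_le] at h
      have h1 : -B ≤ a l / δ := by
        rw [le_div_iff₀ hδ]; nlinarith [h.1]
      have h2 : a l / δ ≤ B := by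
        rw [div_le_iff₀ hδ]; nlinarith [h.2]
      simp only [Finset.coe_Icc, Set.mem_Icc]
      exact ⟨Int.floor_le_floor h1, Int.floor_le_floor h2⟩
    · intro l _ l' _ h
      exact hinj l l' h
  rw [Int.card_Icc] at hmap
  have h4 : (((⌊B⌋ + 1 - ⌊-B⌋).toNat : ℤ)) = ⌊B⌋ + 1 - ⌊-B⌋ := by
    apply Int.toNat_of_nonneg
    have : ⌊-B⌋ ≤ ⌊B⌋ := Int.floor_le_floor (by linarith)
    omega
  have h5 : (T.card : ℝ) ≤ ((⌊B⌋ + 1 - ⌊-B⌋ : ℤ) : ℝ) := by
    rw [← h4]
    exact_mod_cast hmap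
  have h6 := Int.floor_le B
  have h7 := Int.lt_floor_add_one (-B)
  push_cast at h5
  linarith

/-- the tail of a separated sequence -/
theorem tail_le {ι : Type*} (a : ι → ℝ) (δ : ℝ) (hδ : 1 / 2 < δ)
    (hsep : ∀ l l' : ι, l ≠ l' → δ ≤ |a l - a l'|) (η : ℝ) (hη : 0 < η) :
    ∃ M : ℝ, 1 ≤ M ∧ ∀ T : Finset ι, (∀ l ∈ T, M ≤ |a l|) → ∑ l ∈ T, 1 / (a l) ^ 2 ≤ η := by
  classical
  have hδ0 : 0 < δ := by linarith
  have hinj : ∀ l l' : ι, ⌊a l / δ⌋ = ⌊a l' / δ⌋ → l = l' := by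
    intro l l' h
    by_contra hne
    have h1 := hsep l l' hne
    have h2 := Int.abs_sub_lt_one_of_floor_eq_floor h
    have h3 : |a l / δ - a l' / δ| = |a l - a l'| / δ := by
      rw [← sub_div, abs_div, abs_of_pos hδ0]
    rw [h3, div_lt_one hδ0] at h2
    linarith
  have hsum : Summable (fun n : ℤ => 1 / (1 + (n : ℝ) ^ 2)) := by
    have h1 : Summable (fun n : ℤ => 1 / (n : ℝ) ^ 2) := by
      exact Real.summable_one_div_int_pow.mpr (by norm_num)
    have h2 : Summable (fun n : ℤ => 1 / (n : ℝ) ^ 2 + if n = 0 then (1 : ℝ) else 0) :=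
      h1.add (summable_of_hasFiniteSupport (by
        apply Set.Finite.subset (Set.finite_singleton (0 : ℤ))
        intro n hn
        by_contra h
        simp only [Set.mem_singleton_iff] at h
        simp [h] at hn))
    refine Summable.of_nonneg_of_le (fun n => by positivity) (fun n => ?_) h2
    by_cases hn : n = 0
    · simp [hn]
    · have : (0 : ℝ) < (n : ℝ) ^ 2 := by positivity
      simp only [hn, if_false, add_zero]
      apply one_div_le_one_div_of_le this
      linarith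
  have hv := (summable_iff_vanishing_norm.mp hsum) (η / 11) (by positivity)
  obtain ⟨s, hs⟩ := hv
  obtain ⟨K, hK⟩ : ∃ K : ℕ, ∀ n ∈ s, |n| ≤ (K : ℤ) := by
    refine ⟨(s.sup (fun n => n.natAbs)), ?_⟩
    intro n hn
    have := Finset.le_sup (f := fun n : ℤ => n.natAbs) hn
    have h2 : |n| = (n.natAbs : ℤ) := Int.abs_eq_natAbs n
    rw [h2]
    exact_mod_cast this
  refine ⟨δ * (K + 2) + 1, by nlinarith [show (0:ℝ) ≤ K from Nat.cast_nonneg K], ?_⟩
  intro T hT
  have hbig : ∀ l ∈ T, (K : ℝ) < |((⌊a l / δ⌋ : ℤ) : ℝ)| ∧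
      1 / (a l) ^ 2 ≤ 10 * (1 / (1 + ((⌊a l / δ⌋ : ℤ) : ℝ) ^ 2)) := by
    intro l hl
    have h := hT l hl
    have hK0 : (0:ℝ) ≤ K := Nat.cast_nonneg K
    have h1 : (1:ℝ) ≤ |a l| := by nlinarith
    set n : ℤ := ⌊a l / δ⌋ with hn
    have hn1 : (n : ℝ) ≤ a l / δ := Int.floor_le _
    have hn2 : a l / δ < n + 1 := Int.lt_floor_add_one _
    have h3 : |a l / δ| = |a l| / δ := by rw [abs_div, abs_of_pos hδ0]
    have h4 : (K : ℝ) + 2 ≤ |a l / δ| := by
      rw [h3, le_div_iff₀ hδ0]; nlinarith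
    have h5 : |a l / δ| ≤ 2 * |a l| := by
      rw [h3, div_le_iff₀ hδ0]; nlinarith
    have h6 : |a l / δ - n| ≤ 1 := by
      rw [abs_le]; constructor <;> linarith
    have h7 : |a l / δ| ≤ |(n : ℝ)| + 1 := by
      have := abs_add_le (a l / δ - n) (n : ℝ)
      rw [sub_add_cancel] at this
      linarith
    have h8 : |(n : ℝ)| ≤ |a l / δ| + 1 := by
      have := abs_add_le (-(a l / δ - n)) (a l / δ)
      rw [abs_neg] at this
      have h9 : -(a l / δ - n) + a l / δ = (n : ℝ) := by ring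
      rw [h9] at this
      linarith
    refine ⟨by linarith, ?_⟩
    have h10 : |(n : ℝ)| ≤ 3 * |a l| := by linarith
    have h11 : (n : ℝ) ^ 2 ≤ 9 * (a l) ^ 2 := by
      have := pow_le_pow_left₀ (abs_nonneg (n : ℝ)) h10 2
      rw [sq_abs, mul_pow, sq_abs] at this
      linarith
    have h12 : 1 ≤ (a l) ^ 2 := by
      rw [← sq_abs]; nlinarith
    rw [mul_one_div, div_le_div_iff₀ (by positivity) (by positivity)]
    nlinarith
  calc ∑ l ∈ T, 1 / (a l) ^ 2
      ≤ ∑ l ∈ T, 10 * (1 / (1 + ((⌊a l / δ⌋ : ℤ) : ℝ) ^ 2)) :=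
        Finset.sum_le_sum (fun l hl => (hbig l hl).2)
    _ = 10 * ∑ l ∈ T, (1 / (1 + ((⌊a l / δ⌋ : ℤ) : ℝ) ^ 2)) := by rw [Finset.mul_sum]
    _ = 10 * ∑ n ∈ T.image (fun l => ⌊a l / δ⌋), (1 / (1 + (n : ℝ) ^ 2)) := by
        rw [Finset.sum_image]
        intro l _ l' _ h
        exact hinj l l' h
    _ ≤ η := by
        have hd : Disjoint (T.image (fun l => ⌊a l / δ⌋)) s := by
          rw [Finset.disjoint_left]
          intro n hn hns
          rw [Finset.mem_image] at hn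
          obtain ⟨l, hl, rfl⟩ := hn
          have h1 := (hbig l hl).1
          have h2 := hK _ hns
          have h3 : |((⌊a l / δ⌋ : ℤ) : ℝ)| ≤ (K : ℝ) := by exact_mod_cast h2
          linarith
        have := hs _ hd
        rw [Real.norm_eq_abs] at this
        have h4 := le_abs_self (∑ n ∈ T.image (fun l => ⌊a l / δ⌋), (1 / (1 + (n : ℝ) ^ 2)))
        linarith

/-- the counting argument -/
theorem count {ι : Type*} (a : ι → ℝ) (δ : ℝ) (hδ : 1 / 2 < δ)
    (hsep : ∀ l l' : ι, l ≠ l' → δ ≤ |a l - a l'|) (S : ℝ → ℝ) (hS0 : ∀ u, 0 ≤ S u)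
    (hS1 : ∀ u, S u * u ^ 2 ≤ 1)
    (hS2 : ∀ (x : ℝ) (N : ℕ), ∑ j ∈ Finset.Icc (-(N : ℤ)) N, S ((j : ℝ) - x) ≤ 1)
    (hsum : ∀ j : ℤ, HasSum (fun l => S ((j : ℝ) - a l)) 2) : False := by
  classical
  have hδ0 : 0 < δ := by linarith
  set ε : ℝ := (2 * δ - 1) / 2 with hε
  have hε0 : 0 < ε := by rw [hε]; linarith
  have hκ : (1 + ε) / δ < 2 := by rw [div_lt_iff₀ hδ0, hε]; linarith
  set κ : ℝ := 2 - (1 + ε) / δ with hκd
  have hκ0 : 0 < κ := by linarith
  set C : ℝ := ((1 + ε) / ε) ^ 2 with hC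
  have hC0 : 0 < C := by positivity
  obtain ⟨M, hM1, hM⟩ := tail_le a δ hδ hsep (κ / (4 * C)) (by positivity)
  obtain ⟨N, hN⟩ := exists_nat_gt (max M (6 / κ))
  have hNM : M < N := lt_of_le_of_lt (le_max_left _ _) hN
  have hNκ : 6 / κ < N := lt_of_le_of_lt (le_max_right _ _) hN
  have hN0 : (1 : ℝ) ≤ N := by linarith
  -- the sum over j
  have hg : HasSum (fun l => ∑ j ∈ Finset.Icc (-(N : ℤ)) N, S ((j : ℝ) - a l))
      (∑ j ∈ Finset.Icc (-(N : ℤ)) N, (2 : ℝ)) := hasSum_sum (fun j _ => hsum j)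
  have hcardI : ((Finset.Icc (-(N : ℤ)) N).card : ℝ) = 2 * N + 1 := by
    rw [Int.card_Icc]
    have : ((N : ℤ) + 1 - -(N : ℤ)).toNat = 2 * N + 1 := by omega
    rw [this]; push_cast; ring
  have htot : (∑ j ∈ Finset.Icc (-(N : ℤ)) N, (2 : ℝ)) = 2 * (2 * N + 1) := by
    rw [Finset.sum_const, nsmul_eq_mul, hcardI]; ring
  rw [htot] at hg
  obtain ⟨T, hT⟩ : ∃ T : Finset ι, 4 * (N : ℝ) + 1
      < ∑ l ∈ T, ∑ j ∈ Finset.Icc (-(N : ℤ)) N, S ((j : ℝ) - a l) := by
    exact (Filter.Tendsto.eventually_const_lt (by linarith) hg).exists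
  rw [← Finset.sum_filter_add_sum_filter_not T (fun l => |a l| ≤ (1 + ε) * N)] at hT
  have hA : ∑ l ∈ T.filter (fun l => |a l| ≤ (1 + ε) * N),
      ∑ j ∈ Finset.Icc (-(N : ℤ)) N, S ((j : ℝ) - a l) ≤ 2 * ((1 + ε) * N / δ) + 2 := by
    calc _ ≤ ∑ l ∈ T.filter (fun l => |a l| ≤ (1 + ε) * N), (1 : ℝ) :=
          Finset.sum_le_sum (fun l _ => hS2 (a l) N)
      _ = ((T.filter (fun l => |a l| ≤ (1 + ε) * N)).card : ℝ) := by simp
      _ ≤ _ := by
          apply card_le a δ hδ0 hsep _ _ (by positivity)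
          intro l hl
          rw [Finset.mem_filter] at hl
          rw [mul_div_cancel₀ _ hδ0.ne']
          exact hl.2
  have hB : ∑ l ∈ T.filter (fun l => ¬ |a l| ≤ (1 + ε) * N),
      ∑ j ∈ Finset.Icc (-(N : ℤ)) N, S ((j : ℝ) - a l) ≤ (2 * N + 1) * C * (κ / (4 * C)) := by
    have h1 : ∀ l ∈ T.filter (fun l => ¬ |a l| ≤ (1 + ε) * N),
        ∑ j ∈ Finset.Icc (-(N : ℤ)) N, S ((j : ℝ) - a l) ≤ (2 * N + 1) * C * (1 / (a l) ^ 2) := by
      intro l hl
      rw [Finset.mem_filter, not_le] at hl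
      have hl2 := hl.2
      have hal : 0 < |a l| := lt_trans (by positivity) hl2
      have hal2 : 0 < (a l) ^ 2 := by rw [← sq_abs]; positivity
      calc ∑ j ∈ Finset.Icc (-(N : ℤ)) N, S ((j : ℝ) - a l)
          ≤ ∑ j ∈ Finset.Icc (-(N : ℤ)) N, C * (1 / (a l) ^ 2) := by
            apply Finset.sum_le_sum
            intro j hj
            rw [Finset.mem_Icc] at hj
            have hj1 : |(j : ℝ)| ≤ N := by
              rw [abs_le]
              constructor
              · exact_mod_cast hj.1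
              · exact_mod_cast hj.2
            have hd : ε / (1 + ε) * |a l| ≤ |(j : ℝ) - a l| := by
              have h2 : |a l| ≤ |(j : ℝ) - a l| + |(j : ℝ)| := by
                have := abs_add_le (-((j : ℝ) - a l)) (j : ℝ)
                rw [abs_neg] at this
                have h9 : -((j : ℝ) - a l) + j = a l := by ring
                rw [h9] at this
                exact this
              have h3 : ε / (1 + ε) * |a l| = |a l| - |a l| / (1 + ε) := by
                field_simp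
                ring
              have h4 : (N : ℝ) ≤ |a l| / (1 + ε) := by
                rw [le_div_iff₀ (by linarith)]; linarith
              rw [h3]; linarith
            have hd0 : 0 < ε / (1 + ε) * |a l| := by positivity
            have hu : (ε / (1 + ε) * |a l|) ^ 2 ≤ ((j : ℝ) - a l) ^ 2 := by
              rw [← sq_abs ((j : ℝ) - a l)]
              exact pow_le_pow_left₀ hd0.le hd 2
            have h5 := hS1 ((j : ℝ) - a l)
            have h6 := hS0 ((j : ℝ) - a l)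
            have h7 : S ((j : ℝ) - a l) * (ε / (1 + ε) * |a l|) ^ 2 ≤ 1 :=
              le_trans (mul_le_mul_of_nonneg_left hu h6) h5
            have h8 : C * (1 / (a l) ^ 2) = 1 / (ε / (1 + ε) * |a l|) ^ 2 := by
              rw [hC, mul_pow, sq_abs]
              field_simp
            rw [h8, le_div_iff₀ (by positivity)]
            exact h7
        _ = (2 * N + 1) * C * (1 / (a l) ^ 2) := by
            rw [Finset.sum_const, nsmul_eq_mul, hcardI]; ring
    calc _ ≤ ∑ l ∈ T.filter (fun l => ¬ |a l| ≤ (1 + ε) * N),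
          (2 * N + 1) * C * (1 / (a l) ^ 2) := Finset.sum_le_sum h1
      _ = (2 * N + 1) * C * ∑ l ∈ T.filter (fun l => ¬ |a l| ≤ (1 + ε) * N), 1 / (a l) ^ 2 := by
          rw [← Finset.mul_sum]
      _ ≤ _ := by
          apply mul_le_mul_of_nonneg_left _ (by positivity)
          apply hM
          intro l hl
          rw [Finset.mem_filter, not_le] at hl
          have : (N : ℝ) ≤ (1 + ε) * N := by nlinarith
          linarith [hl.2]
  have hfin : (2 * (N : ℝ) + 1) * C * (κ / (4 * C)) = (2 * N + 1) * κ / 4 := by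
    field_simp
  rw [hfin] at hB
  have h1 : (1 + ε) * N / δ = (2 - κ) * N := by rw [hκd]; ring
  rw [h1] at hA
  have h2 : 6 < κ * N := by
    rw [div_lt_iff₀ hκ0] at hNκ; linarith
  have hκ2 : κ ≤ 2 := by
    have : 0 < (1 + ε) / δ := by positivity
    linarith
  nlinarith

end Pool.Agent.N318.Plus
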