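import Mathlib

set_option autoImplicit false

namespace Pool.Agent.N318.Plus

open MeasureTheory Set

/-- the transform of the segment `[t, t + 1]` -/
noncomputable def phi (t u : ℝ) : ℂ :=
  ∫ s in t..(t + 1), Complex.exp (2 * Real.pi * Complex.I * (u * s : ℝ))

theorem phi_zero (t : ℝ) : phi t 0 = 1 := by
  unfold phi
  simp

theorem phi_eq (t u : ℝ) (hu : u ≠ 0) :
    phi t u * ((Real.pi * u : ℝ) : ℂ)
      = Complex.exp (((Real.pi * (2 * t + 1) * u : ℝ) : ℂ) * Complex.I)
        * ((Real.sin (Real.pi * u) : ℝ) : ℂ) := by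
  unfold phi
  have hc : (2 * Real.pi * Complex.I * u : ℂ) ≠ 0 := by
    simp [Real.pi_ne_zero, hu]
  have h1 : ∫ s in t..(t + 1), Complex.exp (2 * Real.pi * Complex.I * (u * s : ℝ))
      = ∫ s in t..(t + 1), Complex.exp ((2 * Real.pi * Complex.I * u) * (s : ℂ)) := by
    congr 1
    funext s
    congr 1
    push_cast
    ring
  rw [h1, integral_exp_mul_complex hc]
  have h2 : Complex.exp (2 * Real.pi * Complex.I * u * ((t + 1 : ℝ) : ℂ))
      = Complex.exp (((Real.pi * (2 * t + 1) * u : ℝ) : ℂ) * Complex.I)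
        * Complex.exp (((Real.pi * u : ℝ) : ℂ) * Complex.I) := by
    rw [← Complex.exp_add]
    congr 1
    push_cast
    ring
  have h3 : Complex.exp (2 * Real.pi * Complex.I * u * ((t : ℝ) : ℂ))
      = Complex.exp (((Real.pi * (2 * t + 1) * u : ℝ) : ℂ) * Complex.I)
        * Complex.exp (-(((Real.pi * u : ℝ) : ℂ)) * Complex.I) := by
    rw [← Complex.exp_add]
    congr 1
    push_cast
    ring
  rw [h2, h3, Complex.ofReal_sin, Complex.sin]
  have hpi : (Real.pi : ℂ) ≠ 0 := by exact_mod_cast Real.pi_ne_zero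
  have hu' : (u : ℂ) ≠ 0 := by exact_mod_cast hu
  field_simp
  rw [Complex.I_sq]
  push_cast
  ring

theorem phi_norm_mul (t u : ℝ) : ‖phi t u‖ * (Real.pi * |u|) = |Real.sin (Real.pi * u)| := by
  by_cases hu : u = 0
  · simp [hu]
  · have h := congrArg norm (phi_eq t u hu)
    rw [norm_mul, norm_mul, Complex.norm_exp_ofReal_mul_I, one_mul, Complex.norm_real,
      Complex.norm_real, Real.norm_eq_abs, Real.norm_eq_abs, abs_mul,
      abs_of_pos Real.pi_pos] at h
    exact h

theorem phi_decay (t u : ℝ) : ‖phi t u‖ ^ 2 * u ^ 2 ≤ 1 := by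
  have h := phi_norm_mul t u
  have h1 : |Real.sin (Real.pi * u)| ≤ 1 := Real.abs_sin_le_one _
  have h2 : ‖phi t u‖ * |u| ≤ 1 := by
    have h3 : (‖phi t u‖ * |u|) * Real.pi ≤ 1 := by
      calc (‖phi t u‖ * |u|) * Real.pi = ‖phi t u‖ * (Real.pi * |u|) := by ring
        _ ≤ 1 := by rw [h]; exact h1
    have h4 : 0 ≤ ‖phi t u‖ * |u| := by positivity
    nlinarith [Real.pi_gt_three]
  have h3 : ‖phi t u‖ ^ 2 * u ^ 2 = (‖phi t u‖ * |u|) ^ 2 := by
    rw [mul_pow, sq_abs]
  rw [h3]
  have h4 : 0 ≤ ‖phi t u‖ * |u| := by positivity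
  nlinarith

theorem sin_gt {x : ℝ} (hx : 0 < x) (hx2 : x < 2 / 3) : x < Real.sin (Real.pi * x) := by
  have hp := Real.pi_pos
  rcases le_or_gt x (1 / 2) with h | h
  · have h1 := Real.mul_le_sin (x := Real.pi * x) (by positivity) (by nlinarith)
    have h2 : 2 / Real.pi * (Real.pi * x) = 2 * x := by field_simp
    rw [h2] at h1
    linarith
  · have h1 := Real.mul_le_sin (x := Real.pi * (1 - x)) (by nlinarith) (by nlinarith)
    have h2 : 2 / Real.pi * (Real.pi * (1 - x)) = 2 * (1 - x) := by field_simp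
    have h3 : Real.sin (Real.pi * (1 - x)) = Real.sin (Real.pi * x) := by
      rw [mul_sub, mul_one, Real.sin_pi_sub]
    rw [h2, h3] at h1
    linarith

theorem sin_cmp {x y : ℝ} (hx : 0 < x) (hx2 : x < 2 / 3) (hxy : x < y) :
    x * |Real.sin (Real.pi * y)| < y * Real.sin (Real.pi * x) := by
  have hp := Real.pi_pos
  have hy : 0 < y := lt_trans hx hxy
  rcases le_or_gt y 1 with h | h
  · have h1 : 0 ≤ Real.sin (Real.pi * y) :=
      Real.sin_nonneg_of_nonneg_of_le_pi (by positivity) (by nlinarith)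
    rw [abs_of_nonneg h1]
    have hm0 : (0 : ℝ) ∈ Icc (0 : ℝ) Real.pi := ⟨le_refl 0, hp.le⟩
    have hm1 : Real.pi * y ∈ Icc (0 : ℝ) Real.pi := ⟨by positivity, by nlinarith⟩
    have hne : (0 : ℝ) ≠ Real.pi * y := by positivity
    have ha : (0 : ℝ) < 1 - x / y := by
      have : x / y < 1 := by rw [div_lt_one hy]; exact hxy
      linarith
    have hb : (0 : ℝ) < x / y := by positivity
    have h2 := strictConcaveOn_sin_Icc.2 hm0 hm1 hne ha hb (by ring)
    simp only [smul_eq_mul, mul_zero, Real.sin_zero, zero_add] at h2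
    have h3 : x / y * (Real.pi * y) = Real.pi * x := by field_simp
    rw [h3, div_mul_eq_mul_div, div_lt_iff₀ hy] at h2
    linarith
  · have h1 := Real.abs_sin_le_one (Real.pi * y)
    have h2 := sin_gt hx hx2
    nlinarith [abs_nonneg (Real.sin (Real.pi * y))]

theorem sin_lt_abs {x : ℝ} (hx : x ≠ 0) : |Real.sin (Real.pi * x)| < Real.pi * |x| := by
  have h : Real.pi * |x| = |Real.pi * x| := by rw [abs_mul, abs_of_pos Real.pi_pos]
  rw [h]
  exact Real.abs_sin_lt_abs (mul_ne_zero Real.pi_ne_zero hx)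

/-- separation -/
theorem sep (t : ℝ) (ht : -(1 / 2) ≤ t) (ht0 : t < 0) (u v : ℝ) (h : phi t u + phi t v = 0) :
    1 / (2 + t) ≤ |u| := by
  by_contra hlt
  rw [not_le] at hlt
  have hp := Real.pi_pos
  have h2t : 0 < 2 + t := by linarith
  have hu23 : |u| < 2 / 3 := by
    refine lt_of_lt_of_le hlt ?_
    rw [div_le_div_iff₀ h2t (by norm_num)]
    linarith
  -- norms are equal
  have hn : ‖phi t u‖ = ‖phi t v‖ := by
    have : phi t u = -phi t v := by linear_combination h
    rw [this, norm_neg]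
  by_cases hu : u = 0
  · subst hu
    rw [phi_zero] at h hn
    rw [norm_one] at hn
    by_cases hv : v = 0
    · subst hv
      rw [phi_zero] at h
      norm_num at h
    · have h1 := phi_norm_mul t v
      rw [← hn, one_mul] at h1
      have h2 := sin_lt_abs hv
      linarith
  by_cases hv : v = 0
  · subst hv
    rw [phi_zero, norm_one] at hn
    have h1 := phi_norm_mul t u
    rw [hn, one_mul] at h1
    have h2 := sin_lt_abs hu
    linarith
  have hu0 : 0 < |u| := abs_pos.mpr hu
  have hv0 : 0 < |v| := abs_pos.mpr hv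
  have hsu : |Real.sin (Real.pi * u)| = |Real.sin (Real.pi * |u|)| := by
    rcases abs_choice u with h1 | h1 <;> rw [h1]
    rw [mul_neg, Real.sin_neg, abs_neg]
  have hsv : |Real.sin (Real.pi * v)| = |Real.sin (Real.pi * |v|)| := by
    rcases abs_choice v with h1 | h1 <;> rw [h1]
    rw [mul_neg, Real.sin_neg, abs_neg]
  have key : |v| * |Real.sin (Real.pi * |u|)| = |u| * |Real.sin (Real.pi * |v|)| := by
    have h1 := phi_norm_mul t u
    have h2 := phi_norm_mul t v
    rw [hsu] at h1
    rw [hsv] at h2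
    rw [← h1, ← h2, hn]
    ring
  have hpos : ∀ x : ℝ, 0 < x → x < 2 / 3 → 0 < Real.sin (Real.pi * x) := fun x hx hx2 =>
    lt_trans hx (sin_gt hx hx2)
  have heq : |v| = |u| := by
    rcases lt_trichotomy |u| |v| with h1 | h1 | h1
    · exfalso
      have h2 := sin_cmp hu0 hu23 h1
      rw [abs_of_pos (hpos _ hu0 hu23)] at key
      linarith
    · exact h1.symm
    · exfalso
      have hv23 : |v| < 2 / 3 := lt_trans h1 hu23
      have h2 := sin_cmp hv0 hv23 h1
      rw [abs_of_pos (hpos _ hv0 hv23)] at key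
      linarith
  have hsin : Real.sin (Real.pi * u) ≠ 0 := by
    intro h0
    rw [h0, abs_zero] at hsu
    have := hpos _ hu0 hu23
    rw [abs_of_pos this] at hsu
    linarith
  rcases abs_eq_abs.mp heq with h1 | h1
  · subst h1
    have h2 : phi t v = 0 := by
      have : (2 : ℂ) * phi t v = 0 := by linear_combination h
      simpa using this
    have h3 := phi_norm_mul t v
    rw [h2, norm_zero, zero_mul] at h3
    exact hsin (abs_eq_zero.mp h3.symm)
  · subst h1
    have e1 := phi_eq t u hu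
    have e2 := phi_eq t (-u) hv
    have h3 : (Complex.exp (((Real.pi * (2 * t + 1) * u : ℝ) : ℂ) * Complex.I)
        + Complex.exp (((Real.pi * (2 * t + 1) * (-u) : ℝ) : ℂ) * Complex.I))
        * ((Real.sin (Real.pi * u) : ℝ) : ℂ) = 0 := by
      have e3 : ((Real.sin (Real.pi * (-u)) : ℝ) : ℂ) = -((Real.sin (Real.pi * u) : ℝ) : ℂ) := by
        rw [mul_neg, Real.sin_neg]
        push_cast
        ring
      rw [e3] at e2
      have e4 : ((Real.pi * (-u) : ℝ) : ℂ) = -((Real.pi * u : ℝ) : ℂ) := by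
        push_cast
        ring
      rw [e4] at e2
      linear_combination ((Real.pi * u : ℝ) : ℂ) * h - e1 + e2
    have h4 : (Complex.exp (((Real.pi * (2 * t + 1) * u : ℝ) : ℂ) * Complex.I)
        + Complex.exp (((Real.pi * (2 * t + 1) * (-u) : ℝ) : ℂ) * Complex.I)) = 0 := by
      rcases mul_eq_zero.mp h3 with h5 | h5
      · exact h5
      · exact absurd (by exact_mod_cast h5) hsin
    have h5 : ((Real.pi * (2 * t + 1) * (-u) : ℝ) : ℂ)
        = -((Real.pi * (2 * t + 1) * u : ℝ) : ℂ) := by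
      push_cast
      ring
    rw [h5] at h4
    have h6 : Real.cos (Real.pi * (2 * t + 1) * u) = 0 := by
      have h7 : Complex.cos ((Real.pi * (2 * t + 1) * u : ℝ) : ℂ) = 0 := by
        rw [Complex.cos, h4, zero_div]
      rw [← Complex.ofReal_cos] at h7
      exact_mod_cast h7
    have h7 : |(2 * t + 1) * u| < 1 / 2 := by
      rw [abs_mul, abs_of_nonneg (by linarith : (0:ℝ) ≤ 2 * t + 1)]
      rw [lt_div_iff₀ h2t] at hlt
      nlinarith
    have h8 : 0 < Real.cos (Real.pi * (2 * t + 1) * u) := by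
      apply Real.cos_pos_of_mem_Ioo
      rw [abs_lt] at h7
      constructor
      · nlinarith [h7.1]
      · nlinarith [h7.2]
    linarith

end Pool.Agent.N318.Plus
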