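import Pool.Agent.N318.Plus.Count
import Pool.Agent.N318.Plus.Sinc

set_option autoImplicit false

namespace Pool.Agent.N318.Plus

open MeasureTheory Set
open scoped ENNReal InnerProductSpace

/-- The measure `m_I ⊗ δ_0 + δ_0 ⊗ m_I` on the plane, `I = [t, t + 1]`. -/
noncomputable def mu (t : ℝ) : Measure (ℝ × ℝ) :=
  (volume.restrict (Icc t (t + 1))).prod (Measure.dirac (0 : ℝ))
    + (Measure.dirac (0 : ℝ)).prod (volume.restrict (Icc t (t + 1)))

/-- The exponential `e_λ(x, y) = exp (2 π i (λ₁ x + λ₂ y))`. -/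
noncomputable def expo (l : ℝ × ℝ) (z : ℝ × ℝ) : ℂ :=
  Complex.exp (2 * Real.pi * Complex.I * ((l.1 * z.1 + l.2 * z.2 : ℝ) : ℂ))

theorem mu_eq (t : ℝ) : mu t
    = (volume.restrict (Icc t (t + 1))).map (fun x => (x, (0 : ℝ)))
      + (volume.restrict (Icc t (t + 1))).map (fun y => ((0 : ℝ), y)) := by
  unfold mu
  rw [Measure.prod_dirac, Measure.dirac_prod]

instance (t : ℝ) : IsFiniteMeasure (mu t) := by
  unfold mu
  infer_instance

theorem integral_mu (t : ℝ) (g : ℝ × ℝ → ℂ) (hg : Measurable g) (C : ℝ) (hC : ∀ z, ‖g z‖ ≤ C) :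
    ∫ z, g z ∂(mu t) = (∫ s in t..(t + 1), g (s, 0)) + ∫ s in t..(t + 1), g (0, s) := by
  have hm1 : Measurable (fun x : ℝ => (x, (0 : ℝ))) := by fun_prop
  have hm2 : Measurable (fun y : ℝ => ((0 : ℝ), y)) := by fun_prop
  rw [mu_eq, integral_add_measure, integral_map hm1.aemeasurable hg.aestronglyMeasurable,
    integral_map hm2.aemeasurable hg.aestronglyMeasurable,
    intervalIntegral.integral_of_le (by linarith), intervalIntegral.integral_of_le (by linarith),
    integral_Icc_eq_integral_Ioc, integral_Icc_eq_integral_Ioc]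
  · have : IsFiniteMeasure ((volume.restrict (Icc t (t + 1))).map (fun x => (x, (0 : ℝ)))) :=
      Measure.isFiniteMeasure_map _ _
    exact Integrable.of_bound hg.aestronglyMeasurable C (Filter.Eventually.of_forall hC)
  · have : IsFiniteMeasure ((volume.restrict (Icc t (t + 1))).map (fun y => ((0 : ℝ), y))) :=
      Measure.isFiniteMeasure_map _ _
    exact Integrable.of_bound hg.aestronglyMeasurable C (Filter.Eventually.of_forall hC)

theorem expo_meas (l : ℝ × ℝ) : Measurable (expo l) := by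
  unfold expo
  fun_prop

theorem expo_norm (l z : ℝ × ℝ) : ‖expo l z‖ = 1 := by
  unfold expo
  rw [Complex.norm_exp]
  simp

/-- the exponential on the horizontal segment, zero on the vertical one -/
noncomputable def Fx (x : ℝ) (z : ℝ × ℝ) : ℂ := if z.2 = 0 then expo (x, 0) z else 0

theorem Fx_meas (x : ℝ) : Measurable (Fx x) := by
  unfold Fx
  refine Measurable.ite ?_ (expo_meas _) measurable_const
  exact measurable_snd (measurableSet_singleton 0)

theorem Fx_norm (x : ℝ) (z : ℝ × ℝ) : ‖Fx x z‖ ≤ 1 := by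
  unfold Fx
  split_ifs
  · rw [expo_norm]
  · simp

theorem Fx_memLp (t x : ℝ) : MemLp (Fx x) 2 (mu t) :=
  MemLp.of_bound (Fx_meas x).aestronglyMeasurable 1 (Filter.Eventually.of_forall (Fx_norm x))

/-- product of two exponentials on a segment -/
theorem prod_aux (x y s : ℝ) :
    (starRingEnd ℂ) (Complex.exp (2 * Real.pi * Complex.I * ((x * s : ℝ) : ℂ)))
      * Complex.exp (2 * Real.pi * Complex.I * ((y * s : ℝ) : ℂ))
    = Complex.exp (2 * Real.pi * Complex.I * (((y - x) * s : ℝ) : ℂ)) := by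
  rw [← Complex.exp_conj, ← Complex.exp_add]
  congr 1
  simp only [map_mul, Complex.conj_I, Complex.conj_ofReal, map_ofNat]
  push_cast
  ring

theorem inner_expo_expo (t : ℝ) (l l' : ℝ × ℝ) :
    ∫ z, (starRingEnd ℂ) (expo l z) * expo l' z ∂(mu t)
      = phi t (l'.1 - l.1) + phi t (l'.2 - l.2) := by
  rw [integral_mu t _ (by have := expo_meas l; have := expo_meas l'; fun_prop) 1 (by
    intro z
    rw [norm_mul, expo_norm, RCLike.norm_conj, expo_norm, one_mul])]
  unfold phi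
  congr 1
  · apply intervalIntegral.integral_congr
    intro s _
    simp only [expo, mul_zero, add_zero]
    exact prod_aux l.1 l'.1 s
  · apply intervalIntegral.integral_congr
    intro s _
    simp only [expo, mul_zero, zero_add]
    exact prod_aux l.2 l'.2 s

theorem ae_ne (t : ℝ) : ∀ᵐ s : ℝ ∂volume, s ∈ Set.uIoc t (t + 1) → s ≠ 0 := by
  have h : ∀ᵐ s : ℝ ∂volume, s ≠ 0 := by
    rw [ae_iff]
    simp
  filter_upwards [h] with s hs _
  exact hs

theorem inner_expo_Fx (t x : ℝ) (l : ℝ × ℝ) :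
    ∫ z, (starRingEnd ℂ) (expo l z) * Fx x z ∂(mu t) = phi t (x - l.1) := by
  rw [integral_mu t _ (by have := expo_meas l; have := Fx_meas x; fun_prop) 1 (by
    intro z
    rw [norm_mul, RCLike.norm_conj, expo_norm, one_mul]
    exact Fx_norm x z)]
  have h2 : ∫ s in t..(t + 1), (starRingEnd ℂ) (expo l (0, s)) * Fx x (0, s) = 0 := by
    rw [intervalIntegral.integral_zero_ae]
    filter_upwards [ae_ne t] with s hs hs2
    simp [Fx, hs hs2]
  rw [h2, add_zero]
  unfold phi
  apply intervalIntegral.integral_congr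
  intro s _
  simp only [Fx, expo, mul_zero, add_zero, if_true]
  exact prod_aux l.1 x s

theorem inner_Fx_Fx (t x y : ℝ) :
    ∫ z, (starRingEnd ℂ) (Fx x z) * Fx y z ∂(mu t) = phi t (y - x) := by
  rw [integral_mu t _ (by have := Fx_meas x; have := Fx_meas y; fun_prop) 1 (by
    intro z
    rw [norm_mul, RCLike.norm_conj]
    exact mul_le_one₀ (Fx_norm x z) (norm_nonneg _) (Fx_norm y z))]
  have h2 : ∫ s in t..(t + 1), (starRingEnd ℂ) (Fx x (0, s)) * Fx y (0, s) = 0 := by
    rw [intervalIntegral.integral_zero_ae]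
    filter_upwards [ae_ne t] with s hs hs2
    simp [Fx, hs hs2]
  rw [h2, add_zero]
  unfold phi
  apply intervalIntegral.integral_congr
  intro s _
  simp only [Fx, expo, mul_zero, add_zero, if_true]
  exact prod_aux x y s

/-- `Fx` as a vector -/
noncomputable def FH (t x : ℝ) : Lp ℂ 2 (mu t) := (Fx_memLp t x).toLp (Fx x)

theorem FH_inner (t x y : ℝ) : (⟪FH t x, FH t y⟫_ℂ : ℂ) = phi t (y - x) := by
  rw [L2.inner_def, ← inner_Fx_Fx]
  apply integral_congr_ae
  filter_upwards [(Fx_memLp t x).coeFn_toLp, (Fx_memLp t y).coeFn_toLp] with z h1 h2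
  unfold FH
  rw [h1, h2, RCLike.inner_apply]
  ring

theorem phi_int (t : ℝ) (j : ℤ) (hj : j ≠ 0) : phi t j = 0 := by
  have h := phi_norm_mul t j
  rw [mul_comm Real.pi (j : ℝ), Real.sin_int_mul_pi, abs_zero] at h
  have hj' : (0 : ℝ) < |(j : ℝ)| := by
    rw [abs_pos]
    exact_mod_cast hj
  rcases mul_eq_zero.mp h with h1 | h1
  · exact norm_eq_zero.mp h1
  · exfalso
    have : 0 < Real.pi * |(j : ℝ)| := by positivity
    linarith

theorem FH_orth (t : ℝ) : Orthonormal ℂ (fun j : ℤ => FH t j) := by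
  rw [orthonormal_iff_ite]
  intro i j
  rw [FH_inner]
  by_cases h : i = j
  · subst h
    simp [phi_zero]
  · rw [if_neg h]
    have h1 := phi_int t (j - i) (sub_ne_zero.mpr (Ne.symm h))
    push_cast at h1
    exact h1

theorem FH_norm (t x : ℝ) : ‖FH t x‖ = 1 := by
  have h1 : ‖FH t x‖ ^ 2 = 1 := by
    rw [← inner_self_eq_norm_sq (𝕜 := ℂ), FH_inner, sub_self, phi_zero]
    simp
  nlinarith [norm_nonneg (FH t x)]

theorem bessel (t x : ℝ) (N : ℕ) :
    ∑ j ∈ Finset.Icc (-(N : ℤ)) N, ‖phi t ((j : ℝ) - x)‖ ^ 2 ≤ 1 := by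
  have h := (FH_orth t).sum_inner_products_le (FH t x) (s := Finset.Icc (-(N : ℤ)) N)
  rw [FH_norm, one_pow] at h
  refine le_trans (le_of_eq ?_) h
  apply Finset.sum_congr rfl
  intro j _
  rw [← FH_inner, norm_inner_symm]

/-- no exponential orthonormal basis -/
theorem main (t : ℝ) (ht : -(1 / 2) ≤ t) (ht0 : t < 0) (Λ : Set (ℝ × ℝ))
    (b : HilbertBasis Λ ℂ (Lp ℂ 2 (mu t)))
    (hb : ∀ l : Λ, ((b l : Lp ℂ 2 (mu t)) : ℝ × ℝ → ℂ)
      =ᵐ[mu t] fun z => ((Real.sqrt 2)⁻¹ : ℂ) * expo l z) : False := by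
  have hs2 : ((Real.sqrt 2 : ℝ) : ℂ) * ((Real.sqrt 2 : ℝ) : ℂ) = 2 := by
    rw [← Complex.ofReal_mul, Real.mul_self_sqrt (by norm_num)]
    norm_num
  have hs0 : ((Real.sqrt 2 : ℝ) : ℂ) ≠ 0 := by
    intro h
    rw [h] at hs2
    norm_num at hs2
  -- inner products
  have hbb : ∀ l l' : Λ, (⟪b l, b l'⟫_ℂ : ℂ)
      = (phi t (l'.1.1 - l.1.1) + phi t (l'.1.2 - l.1.2)) / 2 := by
    intro l l'
    rw [L2.inner_def]
    have h1 : ∫ z, (⟪(b l : Lp ℂ 2 (mu t)) z, (b l' : Lp ℂ 2 (mu t)) z⟫_ℂ : ℂ) ∂(mu t)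
        = ∫ z, (1 / 2 : ℂ) * ((starRingEnd ℂ) (expo l z) * expo l' z) ∂(mu t) := by
      apply integral_congr_ae
      filter_upwards [hb l, hb l'] with z h1 h2
      rw [h1, h2, RCLike.inner_apply]
      simp only [map_mul, map_inv₀, Complex.conj_ofReal]
      field_simp
      linear_combination (-(expo l' z) * (starRingEnd ℂ) (expo l z)) * hs2
    rw [h1, integral_const_mul, inner_expo_expo]
    ring
  have hbF : ∀ (l : Λ) (x : ℝ), (⟪b l, FH t x⟫_ℂ : ℂ)
      = ((Real.sqrt 2)⁻¹ : ℂ) * phi t (x - l.1.1) := by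
    intro l x
    rw [L2.inner_def, ← inner_expo_Fx, ← integral_const_mul]
    apply integral_congr_ae
    filter_upwards [hb l, (Fx_memLp t x).coeFn_toLp] with z h1 h2
    unfold FH
    rw [h1, h2, RCLike.inner_apply]
    simp only [map_mul, map_inv₀, Complex.conj_ofReal]
    ring
  have h2t : 0 < 2 + t := by linarith
  refine count (fun l : Λ => l.1.1) (1 / (2 + t)) ?_ ?_ (fun u => ‖phi t u‖ ^ 2)
    (fun u => by positivity) (phi_decay t) (fun x N => bessel t x N) ?_
  · rw [div_lt_div_iff₀ (by norm_num) h2t]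
    linarith
  · intro l l' hne
    have h := hbb l' l
    rw [b.orthonormal.2 hne.symm] at h
    apply sep t ht ht0 (l.1.1 - l'.1.1) (l.1.2 - l'.1.2)
    linear_combination (-2 : ℂ) * h
  · intro j
    have h := b.hasSum_inner_mul_inner (FH t j) (FH t j)
    rw [FH_inner, sub_self, phi_zero] at h
    have h1 : ∀ l : Λ, (⟪FH t j, b l⟫_ℂ : ℂ) * ⟪b l, FH t j⟫_ℂ
        = ((‖phi t (j - l.1.1)‖ ^ 2 / 2 : ℝ) : ℂ) := by
      intro l
      rw [← inner_conj_symm, hbF, Complex.conj_mul', norm_mul, norm_inv, Complex.norm_real,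
        Real.norm_eq_abs, abs_of_nonneg (Real.sqrt_nonneg 2), ← Complex.ofReal_pow, mul_pow,
        inv_pow, Real.sq_sqrt (by norm_num)]
      push_cast
      ring
    simp_rw [h1] at h
    have h2 : HasSum (fun l : Λ => ‖phi t (j - l.1.1)‖ ^ 2 / 2) 1 := by
      have h4 := Complex.hasSum_re h
      simpa only [Complex.ofReal_re, Complex.one_re] using h4
    have h3 := h2.mul_left 2
    have h5 : (fun l : Λ => ‖phi t (j - l.1.1)‖ ^ 2)
        = fun l : Λ => 2 * (‖phi t (j - l.1.1)‖ ^ 2 / 2) := by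
      funext l
      ring
    rw [h5]
    simpa using h3

end Pool.Agent.N318.Plus
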